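import Pool.Agent.R471.RevCycle
/-!
A cycle of length 200 of the add-or-subtract digit reversal map.
-/
set_option autoImplicit false

namespace Pool.Agent.Results.MP_8c5d11_nt.CycleLength200

/-- the reversal of the decimal digits of `D` (leading zeros of the result are dropped) -/
def rev (D : ℕ) : ℕ := Nat.ofDigits 10 (Nat.digits 10 D).reverse

/-- the map `T`: subtract the reversal if it is smaller than `D`, and add it otherwise -/
def T (D : ℕ) : ℕ := if rev D < D then D - rev D else D + rev D

/-- There is a positive integer on a cycle of `T` of length greater than `71`, namely of length `200`. -/
theorem result : ∃ D : ℕ, 0 < D ∧ ∃ p : ℕ, 71 < p ∧ p = 200 ∧ T^[p] D = D ∧ ∀ k : ℕ, 0 < k → k < p → T^[k] D ≠ D := by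
  refine ⟨972378109898117287203762001098900010890072379711728721098900811087200000001098900893089999971172872000002069100109890000000811087200109898117287203762001098900010890072379711728721099902762189, by norm_num, 200, by norm_num, rfl, ?_⟩
  have h := Pool.Agent.R471.RC.run_spec 200 (10 ^ 200)
    972378109898117287203762001098900010890072379711728721098900811087200000001098900893089999971172872000002069100109890000000811087200109898117287203762001098900010890072379711728721099902762189
    le_rfl 200
    972378109898117287203762001098900010890072379711728721098900811087200000001098900893089999971172872000002069100109890000000811087200109898117287203762001098900010890072379711728721099902762189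
    (by decide +kernel)
  exact h

end Pool.Agent.Results.MP_8c5d11_nt.CycleLength200
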